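import Mathlib

set_option autoImplicit false

namespace Pool.Agent.MP_542436_nt.Abc

/-- Lists of packed inequalities. -/
inductive Rows where
  | nil : Rows
  | cons : ℕ → ℕ → Rows → Rows

/-- Certificate trees, children chained by `next` pointers. -/
inductive Tr0 where
  | nil : Tr0
  | leaf : ℕ → Tr0 → Tr0
  | hole : ℕ → Tr0 → Tr0
  | node : ℕ → Tr0 → Tr0 → Tr0

/-- Packed basis vector. -/
def bs (i : ℕ) : ℕ := Nat.add (Nat.pow 2 (Nat.mul 64 i)) (Nat.pow 2 1728)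

/-- Forces the evaluation of a number. -/
noncomputable def frc {β : Type} (n : ℕ) (k : ℕ → β) : β :=
  Nat.rec (motive := fun _ => β) (k 0) (fun m _ => k (Nat.succ m)) n

/-- The high bits of the fields. -/
def hiB : ℕ := Nat.div (Nat.mul (Nat.pow 2 63) (Nat.sub (Nat.pow 2 1664) 1)) (Nat.sub (Nat.pow 2 64) 1)

/-- Final test at a leaf. -/
noncomputable def fin (P0 N0 : ℕ) : Bool :=
  frc P0 fun P => frc N0 fun N =>
    and (Nat.ble P (Nat.pow 2 1790)) (and (Nat.ble N (Nat.pow 2 1790))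
      (and (Nat.ble 1 (Nat.mod (Nat.div P (Nat.pow 2 1664)) (Nat.pow 2 64)))
        (and (Nat.ble (Nat.mod N (Nat.pow 2 1664)) (Nat.mod P (Nat.pow 2 1664)))
          (Nat.beq (Nat.land (Nat.sub (Nat.mod P (Nat.pow 2 1664)) (Nat.mod N (Nat.pow 2 1664))) hiB) 0))))

/-- Linear combination of the rows read from a stream of multipliers. -/
noncomputable def lf (wd : ℕ) (R : Rows) : ℕ → ℕ → ℕ → Bool :=
  Rows.rec (motive := fun _ => ℕ → ℕ → ℕ → Bool) (fun _ P N => fin P N)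
    (fun p n _ ih c P N =>
      Nat.rec (motive := fun _ => Bool) (fin P N)
        (fun c' _ => cond (Nat.beq (Nat.land c' 1) 0) (ih (Nat.shiftRight c' 1) P N)
          (frc (Nat.mod (Nat.shiftRight c' 1) wd) fun l =>
            ih (Nat.div (Nat.shiftRight c' 1) wd) (Nat.add P (Nat.mul l p)) (Nat.add N (Nat.mul l n))))
        c) R

/-- Leaf test. -/
noncomputable def leafOk (c : ℕ) (R : Rows) : Bool :=
  frc (Nat.pow 2 (Nat.land c 63)) fun wd => lf wd R (Nat.shiftRight c 6) 0 0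

/-- Digit of the labelling. -/
def dg (m d j i : ℕ) : ℕ := Nat.mod (Nat.div d (Nat.pow m (Nat.add (Nat.mul 7 j) i))) m

/-- One term of an aggregated form. -/
def tm (m d j i g c : ℕ) : ℕ := cond (Nat.beq (dg m d j i) g) c 0

/-- Packed sum of the radicals with label `g` in number `j`. -/
def aR (m d j g : ℕ) : ℕ :=
  Nat.add (tm m d j 0 g (bs (Nat.mul 8 j))) (Nat.add (tm m d j 1 g (bs (Nat.add (Nat.mul 8 j) 1)))
    (Nat.add (tm m d j 2 g (bs (Nat.add (Nat.mul 8 j) 2)))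
    (Nat.add (tm m d j 3 g (bs (Nat.add (Nat.mul 8 j) 3)))
    (Nat.add (tm m d j 4 g (bs (Nat.add (Nat.mul 8 j) 4)))
    (Nat.add (tm m d j 5 g (bs (Nat.add (Nat.mul 8 j) 5)))
    (tm m d j 6 g (bs (Nat.add (Nat.mul 8 j) 6))))))))

/-- Packed sum of the sizes with label `g` in number `j`. -/
def aS (m d j g : ℕ) : ℕ :=
  Nat.add (tm m d j 0 g (bs (Nat.mul 8 j)))
    (Nat.add (tm m d j 1 g (Nat.mul 2 (bs (Nat.add (Nat.mul 8 j) 1))))
    (Nat.add (tm m d j 2 g (Nat.mul 3 (bs (Nat.add (Nat.mul 8 j) 2))))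
    (Nat.add (tm m d j 3 g (Nat.mul 4 (bs (Nat.add (Nat.mul 8 j) 3))))
    (Nat.add (tm m d j 4 g (Nat.mul 5 (bs (Nat.add (Nat.mul 8 j) 4))))
    (Nat.add (tm m d j 5 g (Nat.mul 6 (bs (Nat.add (Nat.mul 8 j) 5))))
    (tm m d j 6 g (bs (Nat.add (Nat.mul 8 j) 7))))))))

/-- Sum over the three numbers. -/
def allR (m d g : ℕ) : ℕ := Nat.add (aR m d 0 g) (Nat.add (aR m d 1 g) (aR m d 2 g))

/-- Sum of a packed form over the numbers other than `k`. -/
def ot (k : ℕ) (f : ℕ → ℕ) : ℕ :=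
  Nat.add (cond (Nat.beq 0 k) 0 (f 0)) (Nat.add (cond (Nat.beq 1 k) 0 (f 1)) (cond (Nat.beq 2 k) 0 (f 2)))

/-- Divisibility test for the exponents in number `j`; `p` gives the exponent of each label. -/
def okN (m d j : ℕ) (p : ℕ → ℕ) : Bool :=
  and (Nat.beq (Nat.mod 1 (p (dg m d j 0))) 0) (and (Nat.beq (Nat.mod 2 (p (dg m d j 1))) 0)
    (and (Nat.beq (Nat.mod 3 (p (dg m d j 2))) 0) (and (Nat.beq (Nat.mod 4 (p (dg m d j 3))) 0)
    (and (Nat.beq (Nat.mod 5 (p (dg m d j 4))) 0) (and (Nat.beq (Nat.mod 6 (p (dg m d j 5))) 0)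
    (Nat.beq (Nat.mod 1 (p (dg m d j 6))) 0))))))

/-- The same test for both numbers other than `k`. -/
def okO (m d k : ℕ) (p : ℕ → ℕ) : Bool :=
  and (or (Nat.beq 0 k) (okN m d 0 p)) (and (or (Nat.beq 1 k) (okN m d 1 p))
    (or (Nat.beq 2 k) (okN m d 2 p)))

/-- Exponent `p` on label zero. -/
def p1 (p g : ℕ) : ℕ := cond (Nat.beq g 0) p 1

/-- The two children of a two-way split. -/
noncomputable def two (q base a b : ℕ) (R : Rows) : List Rows :=
  frc base fun base => frc a fun a => frc b fun b =>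
    frc (Nat.add (Nat.mul q (bs 24)) b) fun P => frc (Nat.add (Nat.mul q base) a) fun N =>
    [Rows.cons (bs 24) base (Rows.cons a b R), Rows.cons P N (Rows.cons b a R)]

/-- Lattice node. -/
noncomputable def kH (k p d : ℕ) (R : Rows) : List Rows :=
  cond (and (Nat.ble k 2) (and (Nat.ble 1 p) (and (Nat.ble p 6) (okO 2 d k (p1 p)))))
    (two p (allR 2 d 1) (Nat.add (ot k fun j => aS 2 d j 0) (Nat.mul p (aS 2 d k 0)))
      (Nat.mul p (bs 25)) R) [R]

/-- Determinant node. -/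
noncomputable def kB (k j p ρ d : ℕ) (R : Rows) : List Rows :=
  cond (and (Nat.ble k 2) (and (Nat.ble j 2) (and (not (Nat.beq j k)) (and (Nat.ble 1 p)
      (and (Nat.ble p 6) (and (Nat.ble 2 ρ) (and (Nat.ble ρ 6)
      (and (okN 2 d j (p1 p)) (okN 2 d k (p1 ρ))))))))))
    (two (Nat.mul p ρ) (Nat.add (allR 2 d 1) (ot k fun l => cond (Nat.beq l j) 0 (aR 2 d l 0)))
      (Nat.add (aS 2 d j 0) (Nat.mul p (aS 2 d k 0))) (Nat.mul p (bs 25)) R) [R]

/-- Exponent of each of the five labels. -/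
def p4 (p0 p1 p2 p3 g : ℕ) : ℕ :=
  cond (Nat.beq g 0) p0 (cond (Nat.beq g 1) p1 (cond (Nat.beq g 2) p2 (cond (Nat.beq g 3) p3 1)))

/-- The strict branch. -/
def rS (σ : Bool) (a b : ℕ) (R : Rows) : Rows :=
  cond σ (Rows.cons (Nat.add a (bs 26)) b R) (Rows.cons (Nat.add b (bs 26)) a R)

/-- The closed branch. -/
def rC (σ : Bool) (a b : ℕ) (R : Rows) : Rows := cond σ (Rows.cons b a R) (Rows.cons a b R)

/-- The five children of a moment node. -/
noncomputable def five (σ0 σ1 σ2 σ3 : Bool) (a0 b0 a1 b1 a2 b2 a3 b3 c0 c1 c2 c3 q base : ℕ)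
    (R : Rows) : List Rows :=
  frc a0 fun a0 => frc b0 fun b0 => frc a1 fun a1 => frc b1 fun b1 =>
  frc a2 fun a2 => frc b2 fun b2 => frc a3 fun a3 => frc b3 fun b3 =>
  frc (Nat.add (Nat.mul q (bs 24)) (Nat.add (cond σ0 (Nat.mul c0 b0) 0)
    (Nat.add (cond σ1 (Nat.mul c1 b1) 0) (Nat.add (cond σ2 (Nat.mul c2 b2) 0)
    (cond σ3 (Nat.mul c3 b3) 0))))) fun P =>
  frc (Nat.add base (Nat.add (cond σ0 (Nat.mul c0 a0) 0)
    (Nat.add (cond σ1 (Nat.mul c1 a1) 0) (Nat.add (cond σ2 (Nat.mul c2 a2) 0)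
    (cond σ3 (Nat.mul c3 a3) 0))))) fun N =>
  [rS σ0 a0 b0 R, rS σ1 a1 b1 (rC σ0 a0 b0 R), rS σ2 a2 b2 (rC σ1 a1 b1 (rC σ0 a0 b0 R)),
    rS σ3 a3 b3 (rC σ2 a2 b2 (rC σ1 a1 b1 (rC σ0 a0 b0 R))),
    Rows.cons P N (rC σ3 a3 b3 (rC σ2 a2 b2 (rC σ1 a1 b1 (rC σ0 a0 b0 R))))]

/-- Moment node. -/
noncomputable def kM (k l p0 p1 p2 p3 : ℕ) (a b σ0 σ1 σ2 σ3 : Bool) (d : ℕ) (R : Rows) :
    List Rows :=
  cond (and (Nat.ble k 2) (and (Nat.ble 1 p0) (and (Nat.ble p0 6) (and (Nat.ble 1 p1)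
      (and (Nat.ble p1 6) (and (Nat.ble 1 p2) (and (Nat.ble p2 6) (and (Nat.ble 1 p3)
      (and (Nat.ble p3 6) (and (Nat.beq (Nat.mod l p0) 0) (and (Nat.beq (Nat.mod l p1) 0)
      (and (Nat.beq (Nat.mod l p2) 0) (and (Nat.beq (Nat.mod l p3) 0)
      (okO 5 d k (p4 p0 p1 p2 p3)))))))))))))))
    (frc (aS 5 d k 4) fun w =>
      five σ0 σ1 σ2 σ3
        (Nat.mul (cond a 1 2) (ot k fun j => aS 5 d j 0)) (Nat.mul p0 w)
        (Nat.mul 2 (ot k fun j => aS 5 d j 1)) (Nat.mul p1 w)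
        (Nat.mul (cond b 1 2) (ot k fun j => aS 5 d j 2)) (Nat.mul p2 w)
        (Nat.mul 2 (ot k fun j => aS 5 d j 3)) (Nat.mul p3 w)
        (Nat.mul (cond a 2 1) (Nat.div l p0)) (Nat.mul (cond a 0 1) (Nat.div l p1))
        (Nat.mul (cond b 2 1) (Nat.div l p2)) (Nat.mul (cond b 0 1) (Nat.div l p3))
        (Nat.mul 4 l)
        (Nat.mul l (Nat.add (Nat.mul 4 (allR 5 d 4))
          (Nat.add (Nat.mul 2 (ot k fun j => aR 5 d j 0))
          (Nat.add (Nat.mul (cond a 4 2) (ot k fun j => aR 5 d j 1))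
          (Nat.add (Nat.mul 2 (ot k fun j => aR 5 d j 2))
          (Nat.mul (cond b 4 2) (ot k fun j => aR 5 d j 3))))))) R) [R]

/-- Field of a node descriptor. -/
def fld (d s w : ℕ) : ℕ := Nat.mod (Nat.shiftRight d s) w

/-- Flag of a node descriptor. -/
def flg (d s : ℕ) : Bool := Nat.beq (fld d s 2) 1

/-- The children of a node. -/
noncomputable def kids (d : ℕ) (R : Rows) : List Rows :=
  cond (Nat.beq (fld d 0 4) 0)
    (frc (Nat.shiftRight d 8) fun m => kH (fld d 2 4) (fld d 4 8) m R)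
    (cond (Nat.beq (fld d 0 4) 1)
      (frc (Nat.shiftRight d 12) fun m => kB (fld d 2 4) (fld d 4 4) (fld d 6 8) (fld d 9 8) m R)
      (frc (Nat.shiftRight d 28) fun m => kM (fld d 2 4) (fld d 4 64) (fld d 10 8) (fld d 13 8)
        (fld d 16 8) (fld d 19 8) (flg d 22) (flg d 23) (flg d 24) (flg d 25) (flg d 26) (flg d 27)
        m R))

/-- Equality test for lists of rows. -/
noncomputable def eqR (A : Rows) : Rows → Bool :=
  Rows.rec (motive := fun _ => Rows → Bool)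
    (fun B => Rows.rec (motive := fun _ => Bool) true (fun _ _ _ _ => false) B)
    (fun p n _ ih B => Rows.rec (motive := fun _ => Bool) false
      (fun p' n' tl' _ => and (Nat.beq p p') (and (Nat.beq n n') (ih tl'))) B) A

/-- The checker; `kn` lists regions already known to be empty. -/
noncomputable def chk (kn : ℕ → Rows) (t : Tr0) : List Rows → Bool :=
  Tr0.rec (motive := fun _ => List Rows → Bool)
    (fun Rs => List.rec (motive := fun _ => Bool) true (fun _ _ _ => false) Rs)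
    (fun c _ ih Rs => List.rec (motive := fun _ => Bool) true
      (fun R tl _ => and (leafOk c R) (ih tl)) Rs)
    (fun i _ ih Rs => List.rec (motive := fun _ => Bool) true
      (fun R tl _ => and (eqR R (kn i)) (ih tl)) Rs)
    (fun d _ _ ihk ihn Rs => List.rec (motive := fun _ => Bool) true
      (fun R tl _ => and (ihk (kids d R)) (ihn tl)) Rs) t

/-- All radicals of number `j`. -/
def rN (j : ℕ) : ℕ := aR 1 0 j 0

/-- The size of number `j`. -/
def sN (j : ℕ) : ℕ := aS 1 0 j 0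

/-- The initial rows for the exponent `tn / td`. -/
def R0 (tn td : ℕ) : Rows :=
  .cons (bs 25) (sN 2) <| .cons (bs 25) (sN 1) <| .cons (rN 1) (rN 2) <|
  .cons (Nat.mul 7 (bs 22)) (bs 23) <| .cons (Nat.mul 7 (bs 14)) (bs 15) <|
  .cons (Nat.mul 7 (bs 6)) (bs 7) <|
  .cons (bs 24) (Nat.add (rN 0) (rN 1)) <| .cons (bs 24) (Nat.add (rN 0) (rN 2)) <|
  .cons (bs 24) (Nat.add (rN 1) (rN 2)) <|
  .cons (sN 2) (bs 25) <| .cons (sN 1) (bs 25) <| .cons (sN 0) (bs 25) <|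
  .cons (Nat.add (rN 0) (Nat.add (rN 1) (rN 2))) (bs 25) <|
  .cons (Nat.add (Nat.mul tn (bs 25)) (bs 26)) (Nat.mul td (bs 24)) .nil

/-- The region reached along a path of node descriptors and child indices. -/
noncomputable def pathR (R : Rows) (l : List (ℕ × ℕ)) : Rows :=
  List.rec (motive := fun _ => Rows → Rows) (fun R => R)
    (fun a _ ih R => ih ((kids a.1 R).getD a.2 .nil)) l R

end Pool.Agent.MP_542436_nt.Abc
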