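import Mathlib

set_option autoImplicit false

namespace Pool.Agent.MP_542436_nt.Abc

open Finset Polynomial

/-- The radical. -/
def rd (n : ℕ) : ℕ := ∏ p ∈ n.primeFactors, p

/-- The exceptional triples up to `X`. -/
def Tr (X : ℕ) : Finset (ℕ × ℕ × ℕ) :=
  (Icc 1 X ×ˢ Icc 1 X ×ˢ Icc 1 X).filter (fun t =>
    t.1 + t.2.1 = t.2.2 ∧ Nat.Coprime t.1 t.2.1 ∧ rd (t.1 * t.2.1 * t.2.2) ≤ t.2.2)

/-- The target bound with exponent `θ`. -/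
def MainStmt (θ : ℝ) : Prop :=
  ∀ ε : ℝ, 0 < ε → ∃ K : ℝ, ∀ X : ℕ, 1 ≤ X → ((Tr X).card : ℝ) ≤ K * (X : ℝ) ^ (θ + ε)

/-- The `j`-th number attached to a tuple of factors. -/
def nm {n : ℕ} (ex u : Fin 3 → Fin n → ℕ) (j : Fin 3) : ℕ := ∏ i, u j i ^ ex j i

/-- The divisor bound with constant `Q` up to `cap ^ 4`. -/
def DivB (cap : ℕ) (Q : ℝ) : Prop := ∀ m : ℕ, m ≤ cap ^ 4 → (m.divisors.card : ℝ) ≤ Q

/-- The determinant bound with constant `Q` for values up to `cap`. -/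
def DetB (cap : ℕ) (Q : ℝ) : Prop :=
  ∀ (ρ : ℕ) (h : ℤ[X]) (e : ℤ) (T : ℝ) (A : Finset ℤ), 2 ≤ ρ → ρ ≤ 6 → 1 ≤ h.natDegree →
    h.natDegree ≤ 6 → (h.map (Int.castRingHom ℚ)).Separable → e ≠ 0 → |e| ≤ (cap : ℤ) → 1 ≤ T →
    (∀ t ∈ A, |(t : ℝ)| ≤ T ∧ ∃ z : ℕ, 0 < z ∧ z ≤ cap ∧ h.eval t = e * (z : ℤ) ^ ρ) →
    (A.card : ℝ) ≤ Q * T ^ ((1 : ℝ) / ρ)

/-- A family `S` of factored solutions of `± n0 ± n1 ± n2 = 0`; `r j i` is the logarithm of the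
number of values of the factor `(j, i)`, `s j i` the logarithm of its contribution to the size,
both up to an error `E`. -/
structure Good {n : ℕ} (ex : Fin 3 → Fin n → ℕ) (S : Finset (Fin 3 → Fin n → ℕ))
    (e : Fin 3 → ℤ) (r s : Fin 3 → Fin n → ℝ) (L E : ℝ) (cap : ℕ) : Prop where
  he : ∀ j, e j = 1 ∨ e j = -1
  hE : 1 ≤ E
  pos : ∀ u ∈ S, ∀ j i, 0 < u j i
  eqn : ∀ u ∈ S, ∑ j, e j * (nm ex u j : ℤ) = 0
  cop : ∀ u ∈ S, ∀ j l, j ≠ l → Nat.Coprime (nm ex u j) (nm ex u l)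
  le_cap : ∀ u ∈ S, ∀ j, nm ex u j ≤ cap
  card : ∀ j i, ((S.image (fun u => u j i)).card : ℝ) ≤ Real.exp (r j i + E)
  size : ∀ u ∈ S, ∀ j i, |(ex j i : ℝ) * Real.log (u j i) - s j i| ≤ E
  s0 : ∑ i, s 0 i ≤ L
  s1 : ∑ i, s 1 i = L
  s2 : ∑ i, s 2 i = L
  div : DivB cap (Real.exp E)
  det : DetB cap (Real.exp E)

/-- Sums over the factors carrying a given label. -/
noncomputable def agg {n m : ℕ} (lab : Fin 3 → Fin n → Fin m) (f : Fin 3 → Fin n → ℝ)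
    (j : Fin 3) (g : Fin m) : ℝ := ∑ i, if lab j i = g then f j i else 0

/-- Sum over the two numbers other than `k`. -/
noncomputable def oth {m : ℕ} (k : Fin 3) (f : Fin 3 → Fin m → ℝ) (g : Fin m) : ℝ :=
  ∑ j, if j = k then 0 else f j g

/-- Solutions of a binomial congruence lie in few classes. -/
def RootStmt : Prop :=
  ∀ (w p : ℕ) (a b : ℤ), 0 < w → 1 ≤ p → p ≤ 6 → IsCoprime a (w : ℤ) →
    ∃ Z : Finset ℤ, Z.card ≤ w.divisors.card ^ 4 ∧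
      ∀ x y : ℤ, IsCoprime x (w : ℤ) → IsCoprime y (w : ℤ) → (w : ℤ) ∣ a * x ^ p - b * y ^ p →
        ∃ z ∈ Z, (w : ℤ) ∣ x - z * y

/-- The determinant method for `e z ^ ρ = h(t)`. -/
def DetStmt : Prop :=
  ∀ ε : ℝ, 0 < ε → ∃ C : ℝ, 1 ≤ C ∧ ∀ cap : ℕ, 1 ≤ cap → DetB cap (C * (cap : ℝ) ^ ε)

/-- Merging factors with the same label. -/
def RedStmt : Prop :=
  ∀ (n m : ℕ) (ex : Fin 3 → Fin n → ℕ) (q : Fin 3 → Fin m → ℕ) (lab : Fin 3 → Fin n → Fin m)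
    (S : Finset (Fin 3 → Fin n → ℕ)) (e : Fin 3 → ℤ) (r s : Fin 3 → Fin n → ℝ) (L E : ℝ)
    (cap : ℕ), (∀ j i, 0 < ex j i) → (∀ j g, 0 < q j g) → (∀ j i, q j (lab j i) ∣ ex j i) →
    Good ex S e r s L E cap →
    ∃ S' : Finset (Fin 3 → Fin m → ℕ),
      Good q S' e (agg lab r) (agg lab s) L ((n + 1) * E) cap ∧
      (S.card : ℝ) ≤ Real.exp (3 * n * E) * S'.card

/-- The exponent given by the lattice bound. -/
noncomputable def hB (k : Fin 3) (p : ℕ) (r s : Fin 3 → Fin 2 → ℝ) (L : ℝ) : ℝ :=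
  ∑ j, r j 1 + max 0 (oth k s 0 / p + s k 0 - L)

/-- The lattice bound. -/
def HStmt : Prop :=
  ∀ (k : Fin 3) (p : ℕ) (S : Finset (Fin 3 → Fin 2 → ℕ)) (e : Fin 3 → ℤ)
    (r s : Fin 3 → Fin 2 → ℝ) (L E : ℝ) (cap : ℕ), 1 ≤ p → p ≤ 6 →
    Good (fun j g => if j ≠ k ∧ g = 0 then p else 1) S e r s L E cap →
    (S.card : ℝ) ≤ Real.exp (hB k p r s L + 50 * E)

/-- The exponent given by the determinant bound. -/
noncomputable def bB (k j : Fin 3) (p ρ : ℕ) (r s : Fin 3 → Fin 2 → ℝ) (L : ℝ) : ℝ :=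
  ∑ l, r l 1 + (∑ l, if l = k ∨ l = j then 0 else r l 0) + max 0 (s j 0 / p + s k 0 - L) / ρ

/-- The determinant bound. -/
def BStmt : Prop :=
  ∀ (k j : Fin 3) (p ρ : ℕ) (S : Finset (Fin 3 → Fin 2 → ℕ)) (e : Fin 3 → ℤ)
    (r s : Fin 3 → Fin 2 → ℝ) (L E : ℝ) (cap : ℕ), j ≠ k → 1 ≤ p → p ≤ 6 → 2 ≤ ρ → ρ ≤ 6 →
    Good (fun l g => if l = j ∧ g = 0 then p else if l = k ∧ g = 0 then ρ else 1)
      S e r s L E cap →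
    (S.card : ℝ) ≤ Real.exp (bB k j p ρ r s L + 50 * E)

/-- The cost of one half in the moment bound. -/
noncomputable def hc (a : Bool) (r0 r1 s0 s1 w : ℝ) : ℝ :=
  if a then r0 / 2 + r1 + max 0 (s0 - w) / 2
  else (r0 + r1) / 2 + max 0 (2 * s0 - w) / 4 + max 0 (2 * s1 - w) / 4

/-- The exponent given by the moment bound. -/
noncomputable def mB (k : Fin 3) (p : Fin 5 → ℕ) (a b : Bool) (r s : Fin 3 → Fin 5 → ℝ) : ℝ :=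
  ∑ j, r j 4 +
    hc a (oth k r 0) (oth k r 1) (oth k s 0 / p 0) (oth k s 1 / p 1) (s k 4) +
    hc b (oth k r 2) (oth k r 3) (oth k s 2 / p 2) (oth k s 3 / p 3) (s k 4)

/-- The moment bound. -/
def MStmt : Prop :=
  ∀ (k : Fin 3) (p : Fin 5 → ℕ) (a b : Bool) (S : Finset (Fin 3 → Fin 5 → ℕ)) (e : Fin 3 → ℤ)
    (r s : Fin 3 → Fin 5 → ℝ) (L E : ℝ) (cap : ℕ), (∀ g, 1 ≤ p g) → (∀ g, p g ≤ 6) → p 4 = 1 →
    Good (fun j g => if j = k then 1 else p g) S e r s L E cap →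
    (S.card : ℝ) ≤ Real.exp (mB k p a b r s + 50 * E)

/-- The exponents of the seven factors. -/
def ex1 : Fin 7 → ℕ := ![1, 2, 3, 4, 5, 6, 1]

/-- Canonical factorisation. -/
def FactorStmt : Prop :=
  ∀ n : ℕ, 0 < n → ∃ u : Fin 7 → ℕ, (∀ i, 0 < u i) ∧ ∏ i, u i ^ ex1 i = n ∧
    (∏ i, if i = 6 then rd (u 6) else u i) ≤ rd n ∧ rd (u 6) ^ 7 ≤ u 6

/-- Few integers have a small radical. -/
def TailStmt : Prop :=
  ∀ ε : ℝ, 0 < ε → ∃ C : ℝ, 1 ≤ C ∧ ∀ X t : ℕ, 1 ≤ X →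
    ((((Icc 1 X).filter (fun v => rd v ≤ t)).card : ℝ)) ≤ C * (X : ℝ) ^ ε * t

/-- The linear constraints on the logarithmic sizes. -/
structure Feas (r s : Fin 3 → Fin 7 → ℝ) (L : ℝ) : Prop where
  r0 : ∀ j i, 0 ≤ r j i
  sr : ∀ j (i : Fin 7), i ≠ 6 → s j i = (ex1 i : ℝ) * r j i
  tl : ∀ j, 7 * r j 6 ≤ s j 6
  tot : ∑ j, ∑ i, r j i ≤ L
  sym : ∑ i, r 1 i ≤ ∑ i, r 2 i
  s0 : ∑ i, s 0 i ≤ L
  s1 : ∑ i, s 1 i = L
  s2 : ∑ i, s 2 i = L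

/-- The largest dyadic class. -/
def SetupStmt : Prop :=
  ∀ ε : ℝ, 0 < ε → ∃ C : ℝ, 1 ≤ C ∧ ∀ (X : ℕ) (E : ℝ), 1 ≤ X → C * (X : ℝ) ^ ε ≤ Real.exp E →
    DivB X (Real.exp E) → DetB X (Real.exp E) →
    ∃ (S : Finset (Fin 3 → Fin 7 → ℕ)) (e : Fin 3 → ℤ) (r s : Fin 3 → Fin 7 → ℝ) (L : ℝ),
      Good (fun _ => ex1) S e r s L E X ∧ Feas r s L ∧ L ≤ Real.log X ∧
      ((Tr X).card : ℝ) ≤ Real.exp E * S.card

/-- All lattice inequalities. -/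
def HI (r s : Fin 3 → Fin 7 → ℝ) (L ν : ℝ) : Prop :=
  ∀ (k : Fin 3) (p : ℕ) (lab : Fin 3 → Fin 7 → Fin 2), 1 ≤ p → p ≤ 6 →
    (∀ j i, j ≠ k → lab j i = 0 → p ∣ ex1 i) → ν ≤ hB k p (agg lab r) (agg lab s) L

/-- All determinant inequalities. -/
def BI (r s : Fin 3 → Fin 7 → ℝ) (L ν : ℝ) : Prop :=
  ∀ (k j : Fin 3) (p ρ : ℕ) (lab : Fin 3 → Fin 7 → Fin 2), j ≠ k → 1 ≤ p → p ≤ 6 → 2 ≤ ρ →
    ρ ≤ 6 → (∀ i, lab j i = 0 → p ∣ ex1 i) → (∀ i, lab k i = 0 → ρ ∣ ex1 i) →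
    ν ≤ bB k j p ρ (agg lab r) (agg lab s) L

/-- All moment inequalities. -/
def MI (r s : Fin 3 → Fin 7 → ℝ) (ν : ℝ) : Prop :=
  ∀ (k : Fin 3) (p : Fin 5 → ℕ) (a b : Bool) (lab : Fin 3 → Fin 7 → Fin 5), (∀ g, 1 ≤ p g) →
    (∀ g, p g ≤ 6) → p 4 = 1 → (∀ j i, j ≠ k → p (lab j i) ∣ ex1 i) →
    ν ≤ mB k p a b (agg lab r) (agg lab s)

/-- The combinatorial optimisation. -/
def LPStmt (θ : ℝ) : Prop :=
  ∀ (r s : Fin 3 → Fin 7 → ℝ) (L ν : ℝ), Feas r s L → HI r s L ν → BI r s L ν → MI r s ν →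
    ν ≤ θ * L

/-- The assembly. -/
def GlueStmt : Prop :=
  ∀ θ : ℝ, 0 ≤ θ → DetStmt → RedStmt → HStmt → BStmt → MStmt → SetupStmt → LPStmt θ → MainStmt θ

end Pool.Agent.MP_542436_nt.Abc
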