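import Pool.Agent.MP_542436_nt.Abc.Chk

set_option autoImplicit false
set_option exponentiation.threshold 2000

namespace Pool.Agent.MP_542436_nt.Abc

open Finset

theorem frc_eq {β : Type} (n : ℕ) (k : ℕ → β) : frc n k = k n := by
  cases n <;> rfl

theorem bs_eq (i : ℕ) : bs i = (2 ^ 64) ^ i + (2 ^ 64) ^ 27 := by
  unfold bs
  rw [← pow_mul, ← pow_mul]
  rfl

theorem hiB_bit : ∀ i < 26, hiB.testBit (64 * i + 63) = true := by decide +kernel

attribute [local irreducible] bs hiB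

/-- The packed number `n` represents the value `y` and the strictness count `t`. -/
def Fm (x : ℕ → ℝ) (n : ℕ) (y : ℝ) (t : ℕ) : Prop :=
  ∃ v : ℕ → ℕ, n = ∑ i ∈ range 27, v i * bs i ∧ y = ∑ i ∈ range 26, (v i : ℝ) * x i ∧ t = v 26

variable {x : ℕ → ℝ}

theorem Fm.zero : Fm x 0 0 0 := ⟨fun _ => 0, by simp, by simp, rfl⟩

theorem Fm.add {n m : ℕ} {y z : ℝ} {t u : ℕ} (h : Fm x n y t) (h' : Fm x m z u) :
    Fm x (Nat.add n m) (y + z) (t + u) := by
  obtain ⟨v, hv, rfl, rfl⟩ := h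
  obtain ⟨w, hw, rfl, rfl⟩ := h'
  refine ⟨fun i => v i + w i, ?_, ?_, rfl⟩
  · rw [Nat.add_eq, hv, hw, ← sum_add_distrib]
    exact sum_congr rfl fun i _ => (add_mul _ _ _).symm
  · simp only [Nat.cast_add, add_mul, sum_add_distrib]

theorem Fm.mul (c : ℕ) {n : ℕ} {y : ℝ} {t : ℕ} (h : Fm x n y t) :
    Fm x (Nat.mul c n) (c * y) (c * t) := by
  obtain ⟨v, hv, rfl, rfl⟩ := h
  refine ⟨fun i => c * v i, ?_, ?_, rfl⟩
  · rw [Nat.mul_eq, hv, mul_sum]
    exact sum_congr rfl fun i _ => (mul_assoc _ _ _).symm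
  · simp only [Nat.cast_mul, mul_sum, mul_assoc]

theorem Fm.bs (i : ℕ) (hi : i < 26) : Fm x (bs i) (x i) 0 := by
  refine ⟨fun j => if j = i then 1 else 0, ?_, ?_, ?_⟩
  · simp [sum_ite_eq', show i < 27 by omega]
  · simp [sum_ite_eq', hi]
  · simp [show ¬ 26 = i by omega]

theorem Fm.st : Fm x (Abc.bs 26) 0 1 := by
  refine ⟨fun j => if j = 26 then 1 else 0, ?_, ?_, ?_⟩
  · simp [sum_ite_eq']
  · symm
    refine sum_eq_zero fun i hi => ?_
    have : i ≠ 26 := by simp at hi; omega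
    simp [this]
  · simp

theorem Fm.congr {n : ℕ} {y y' : ℝ} {t t' : ℕ} (h : Fm x n y t) (e : y = y') (e' : t = t') :
    Fm x n y' t' := e ▸ e' ▸ h

/-- A valid packed inequality. -/
def Row (x : ℕ → ℝ) (P N : ℕ) : Prop :=
  ∃ y z t u, Fm x P y t ∧ Fm x N z u ∧ y ≤ z ∧ (0 < t → y < z)

theorem Row.of_le {P N : ℕ} {y z : ℝ} (h : Fm x P y 0) (h' : Fm x N z 0) (hl : y ≤ z) :
    Row x P N := ⟨y, z, 0, 0, h, h', hl, fun h => absurd h (lt_irrefl 0)⟩

theorem Row.of_lt {P N : ℕ} {y z : ℝ} (h : Fm x P y 0) (h' : Fm x N z 0) (hl : y < z) :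
    Row x (Nat.add P (bs 26)) N :=
  ⟨y + 0, z, 0 + 1, 0, h.add Fm.st, h', by linarith, fun _ => by linarith⟩

theorem Row.comb {P N p n : ℕ} (l : ℕ) (h : Row x P N) (h' : Row x p n) :
    Row x (Nat.add P (Nat.mul l p)) (Nat.add N (Nat.mul l n)) := by
  obtain ⟨y, z, t, u, h1, h2, h3, h4⟩ := h
  obtain ⟨y', z', t', u', h1', h2', h3', h4'⟩ := h'
  have hl : (0 : ℝ) ≤ l := Nat.cast_nonneg l
  have h5 : (l : ℝ) * y' ≤ l * z' := mul_le_mul_of_nonneg_left h3' hl
  refine ⟨_, _, _, _, h1.add (h1'.mul l), h2.add (h2'.mul l), by linarith, fun h => ?_⟩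
  rcases Nat.eq_zero_or_pos t with ht | ht
  · subst ht
    rw [zero_add] at h
    have hl0 : (0 : ℝ) < l := by exact_mod_cast Nat.pos_of_mul_pos_right h
    have := mul_lt_mul_of_pos_left (h4' (Nat.pos_of_mul_pos_left h)) hl0
    linarith
  · linarith [h4 ht]

theorem sum_lt_pow (B : ℕ) (v : ℕ → ℕ) (k : ℕ) (hv : ∀ i < k, v i < B) :
    ∑ i ∈ range k, v i * B ^ i < B ^ k := by
  induction k with
  | zero => simp
  | succ k ih =>
    rw [sum_range_succ, pow_succ]
    have h1 := ih fun i hi => hv i (by omega)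
    have h2 : v k + 1 ≤ B := hv k (by omega)
    nlinarith [Nat.mul_le_mul_left (B ^ k) h2]

theorem digit_inj (B : ℕ) (v w : ℕ → ℕ) (k : ℕ) (hv : ∀ i < k, v i < B) (hw : ∀ i < k, w i < B)
    (h : ∑ i ∈ range k, v i * B ^ i = ∑ i ∈ range k, w i * B ^ i) : ∀ i < k, v i = w i := by
  induction k with
  | zero => intro i hi; omega
  | succ k ih =>
    rw [sum_range_succ, sum_range_succ] at h
    have h1 := sum_lt_pow B v k fun i hi => hv i (by omega)
    have h2 := sum_lt_pow B w k fun i hi => hw i (by omega)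
    have hB : 0 < B ^ k := by omega
    have e1 : v k = w k := by
      have a1 : (∑ i ∈ range k, v i * B ^ i + v k * B ^ k) / B ^ k = v k := by
        rw [Nat.add_mul_div_right _ _ hB, Nat.div_eq_of_lt h1, zero_add]
      have a2 : (∑ i ∈ range k, w i * B ^ i + w k * B ^ k) / B ^ k = w k := by
        rw [Nat.add_mul_div_right _ _ hB, Nat.div_eq_of_lt h2, zero_add]
      rw [← a1, ← a2, h]
    rw [e1] at h
    have := ih (fun i hi => hv i (by omega)) (fun i hi => hw i (by omega)) (by omega)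
    intro i hi
    rcases Nat.lt_succ_iff_lt_or_eq.1 hi with h' | rfl
    · exact this i h'
    · exact e1

theorem digit_expand (B : ℕ) (k D : ℕ) :
    D % B ^ k = ∑ i ∈ range k, (D / B ^ i % B) * B ^ i := by
  induction k with
  | zero => simp [Nat.mod_one]
  | succ k ih => rw [sum_range_succ, ← ih, pow_succ, Nat.mod_mul]; ring

theorem unpack0 (B M : ℕ) (hM : M < B) (v : ℕ → ℕ) (n : ℕ)
    (e3 : n = ∑ i ∈ range 27, v i * B ^ i + (∑ i ∈ range 27, v i) * B ^ 27) (hb : n ≤ M * B ^ 27) :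
    (∀ i < 27, v i ≤ M) ∧ n % B ^ 26 = ∑ i ∈ range 26, v i * B ^ i ∧ n / B ^ 26 % B = v 26 := by
  have hB0 : 0 < B := by omega
  have hs : ∑ i ∈ range 27, v i ≤ M := by
    have : (∑ i ∈ range 27, v i) * B ^ 27 ≤ M * B ^ 27 := by omega
    exact Nat.le_of_mul_le_mul_right this (pow_pos hB0 _)
  have hv : ∀ i < 27, v i ≤ M := fun i hi =>
    (single_le_sum (f := v) (fun _ _ => Nat.zero_le _) (mem_range.2 hi)).trans hs
  have hv' : ∀ i < 27, v i < B := fun i hi => (hv i hi).trans_lt hM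
  have h26 := sum_lt_pow B v 26 fun i hi => hv' i (by omega)
  have e4 : n = ∑ i ∈ range 26, v i * B ^ i + (v 26 + B * ∑ i ∈ range 27, v i) * B ^ 26 := by
    rw [e3, sum_range_succ (fun i => v i * B ^ i)]; ring
  refine ⟨hv, ?_, ?_⟩
  · rw [e4, Nat.add_mul_mod_self_right, Nat.mod_eq_of_lt h26]
  · rw [e4, Nat.add_mul_div_right _ _ (pow_pos hB0 _), Nat.div_eq_of_lt h26, zero_add,
      Nat.add_mul_mod_self_left, Nat.mod_eq_of_lt (hv' 26 (by norm_num))]

theorem unpack (v : ℕ → ℕ) (n : ℕ) (hn : n = ∑ i ∈ range 27, v i * bs i) (hb : n ≤ 2 ^ 1790) :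
    (∀ i < 27, v i < 2 ^ 63) ∧ n % 2 ^ 1664 = ∑ i ∈ range 26, v i * (2 ^ 64) ^ i ∧
      n / 2 ^ 1664 % 2 ^ 64 = v 26 := by
  have e1 : (2 : ℕ) ^ 1664 = (2 ^ 64) ^ 26 := by rw [← pow_mul]
  have e2 : (2 : ℕ) ^ 1790 = 2 ^ 62 * (2 ^ 64) ^ 27 := by rw [← pow_mul, ← pow_add]
  rw [e2] at hb
  rw [e1]
  have := unpack0 (2 ^ 64) (2 ^ 62) (by norm_num) v n (by
    rw [hn, sum_mul, ← sum_add_distrib]
    exact sum_congr rfl fun i _ => by rw [bs_eq, mul_add]) hb
  exact ⟨fun i hi => (this.1 i hi).trans_lt (by norm_num), this.2⟩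

theorem digit_small (D i : ℕ) (hi : i < 26) (h : D &&& hiB = 0) :
    D / (2 ^ 64) ^ i % 2 ^ 64 < 2 ^ 63 := by
  have h1 : D.testBit (64 * i + 63) = false := by
    have h0 : (D &&& hiB).testBit (64 * i + 63) = false := by rw [h, Nat.zero_testBit]
    rwa [Nat.testBit_and, hiB_bit i hi, Bool.and_true] at h0
  have h2 : (D / (2 ^ 64) ^ i % 2 ^ 64).testBit 63 = false := by
    rw [Nat.testBit_mod_two_pow, ← pow_mul, Nat.testBit_div_two_pow, add_comm 63, h1]
    simp
  have h3 : D / (2 ^ 64) ^ i % 2 ^ 64 < 2 ^ 64 := Nat.mod_lt _ (by positivity)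
  generalize D / (2 ^ 64) ^ i % 2 ^ 64 = a at h2 h3
  rw [Nat.testBit_eq_decide_div_mod_eq] at h2
  simp only [decide_eq_false_iff_not] at h2
  omega

theorem fin_sound (hx : ∀ i, 0 ≤ x i) {P N : ℕ} (h : Row x P N) (hf : fin P N = true) : False := by
  obtain ⟨y, z, t, u, ⟨v, hv, rfl, rfl⟩, ⟨w, hw, rfl, rfl⟩, -, h4⟩ := h
  unfold fin at hf
  simp only [frc_eq, Bool.and_eq_true, Nat.ble_eq, Nat.beq_eq] at hf
  obtain ⟨f1, f2, f3, f4, f5⟩ := hf
  obtain ⟨a1, a2, a3⟩ := unpack v P hv f1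
  obtain ⟨b1, b2, -⟩ := unpack w N hw f2
  change 1 ≤ P / 2 ^ 1664 % 2 ^ 64 at f3
  change N % 2 ^ 1664 ≤ P % 2 ^ 1664 at f4
  change (P % 2 ^ 1664 - N % 2 ^ 1664) &&& hiB = 0 at f5
  have hlt : P % 2 ^ 1664 < 2 ^ 1664 := Nat.mod_lt _ (by positivity)
  obtain ⟨D, hD⟩ : ∃ D, D = P % 2 ^ 1664 - N % 2 ^ 1664 := ⟨_, rfl⟩
  rw [← hD] at f5
  have e1 : (2 : ℕ) ^ 1664 = (2 ^ 64) ^ 26 := by rw [← pow_mul]
  have hD1 : D < (2 ^ 64) ^ 26 := by rw [← e1]; omega
  have hD2 := digit_expand (2 ^ 64) 26 D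
  rw [Nat.mod_eq_of_lt hD1] at hD2
  have key := digit_inj (2 ^ 64) v (fun i => w i + D / (2 ^ 64) ^ i % 2 ^ 64) 26
    (fun i hi => (a1 i (by omega)).trans (by norm_num))
    (fun i hi => by
      have := digit_small D i hi f5
      have := b1 i (by omega)
      omega)
    (by
      simp only [add_mul, sum_add_distrib]
      rw [← hD2, ← a2, ← b2]
      omega)
  have h5 := h4 (by omega)
  refine absurd h5 (not_lt.2 (sum_le_sum fun i hi => ?_))
  refine mul_le_mul_of_nonneg_right ?_ (hx i)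
  have := key i (mem_range.1 hi)
  exact_mod_cast (by omega : w i ≤ v i)

/-- All rows of the list hold. -/
def Sat (x : ℕ → ℝ) : Rows → Prop
  | .nil => True
  | .cons p n R => Row x p n ∧ Sat x R

theorem lf_sound (hx : ∀ i, 0 ≤ x i) (wd : ℕ) (R : Rows) :
    Sat x R → ∀ c P N, Row x P N → lf wd R c P N = true → False := by
  induction R with
  | nil => intro _ c P N h hf; exact fin_sound hx h hf
  | cons p n R ih =>
    intro hs c P N h hf
    cases c with
    | zero => exact fin_sound hx h hf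
    | succ c =>
      have hf' : cond (Nat.beq (Nat.land c 1) 0) (lf wd R (Nat.shiftRight c 1) P N)
          (frc (Nat.mod (Nat.shiftRight c 1) wd) fun l =>
            lf wd R (Nat.div (Nat.shiftRight c 1) wd) (Nat.add P (Nat.mul l p))
              (Nat.add N (Nat.mul l n))) = true := hf
      rw [frc_eq] at hf'
      cases hb : Nat.beq (Nat.land c 1) 0 with
      | true => rw [hb] at hf'; exact ih hs.2 _ _ _ h hf'
      | false => rw [hb] at hf'; exact ih hs.2 _ _ _ (h.comb _ hs.1) hf'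

theorem leaf_sound (hx : ∀ i, 0 ≤ x i) {c : ℕ} {R : Rows} (h : leafOk c R = true) :
    ¬ Sat x R := by
  intro hs
  unfold leafOk at h
  rw [frc_eq] at h
  exact lf_sound hx _ R hs _ 0 0 (Row.of_le Fm.zero Fm.zero le_rfl) h

theorem eqR_sound (A : Rows) : ∀ B, eqR A B = true → A = B := by
  induction A with
  | nil => intro B h; cases B with
    | nil => rfl
    | cons => exact absurd h (by simp [eqR])
  | cons p n A ih => intro B h; cases B with
    | nil => exact absurd h (by simp [eqR])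
    | cons p' n' B =>
      have h' : (Nat.beq p p' && (Nat.beq n n' && eqR A B)) = true := h
      simp only [Bool.and_eq_true, Nat.beq_eq] at h'
      rw [h'.1, h'.2.1, ih B h'.2.2]

theorem chk_sound (hx : ∀ i, 0 ≤ x i)
    (hk : ∀ d R, Sat x R → ∃ R' ∈ kids d R, Sat x R') (kn : ℕ → Rows) (hn : ∀ i, ¬ Sat x (kn i))
    (t : Tr0) : ∀ Rs, chk kn t Rs = true → ∀ R ∈ Rs, ¬ Sat x R := by
  induction t with
  | nil =>
    intro Rs h R hR
    cases Rs with
    | nil => simp at hR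
    | cons => exact absurd h (by simp [chk])
  | leaf c nx ih =>
    intro Rs h R hR
    cases Rs with
    | nil => simp at hR
    | cons R1 tl =>
      have h' : (leafOk c R1 && chk kn nx tl) = true := h
      rw [Bool.and_eq_true] at h'
      rcases List.mem_cons.1 hR with rfl | hR
      · exact leaf_sound hx h'.1
      · exact ih tl h'.2 R hR
  | hole i nx ih =>
    intro Rs h R hR
    cases Rs with
    | nil => simp at hR
    | cons R1 tl =>
      have h' : (eqR R1 (kn i) && chk kn nx tl) = true := h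
      rw [Bool.and_eq_true] at h'
      rcases List.mem_cons.1 hR with rfl | hR
      · rw [eqR_sound _ _ h'.1]; exact hn i
      · exact ih tl h'.2 R hR
  | node d ks nx ihk ihn =>
    intro Rs h R hR
    cases Rs with
    | nil => simp at hR
    | cons R1 tl =>
      have h' : (chk kn ks (kids d R1) && chk kn nx tl) = true := h
      rw [Bool.and_eq_true] at h'
      rcases List.mem_cons.1 hR with rfl | hR
      · intro hs
        obtain ⟨R', h1, h2⟩ := hk d R hs
        exact ihk _ h'.1 R' h1 h2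
      · exact ihn tl h'.2 R hR

theorem bad_unsat (hx : ∀ i, 0 ≤ x i) : ¬ Sat x (.cons (bs 26) 0 .nil) :=
  leaf_sound (c := 257) hx (by decide +kernel)

end Pool.Agent.MP_542436_nt.Abc
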