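import Pool.Agent.MP_542436_nt.Abc.Pack
import Pool.Agent.MP_542436_nt.Abc.Defs

set_option autoImplicit false

namespace Pool.Agent.MP_542436_nt.Abc

open Finset

attribute [local irreducible] bs

/-- The valuation `x` of the packed fields matches the data. -/
structure Val (x : ℕ → ℝ) (r s : Fin 3 → Fin 7 → ℝ) (L ν : ℝ) : Prop where
  hr : ∀ (j : Fin 3) (i : Fin 7), x (8 * j + i) = r j i
  hs : ∀ j : Fin 3, x (8 * j + 7) = s j 6
  hν : x 24 = ν
  hL : x 25 = L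
  nn : ∀ i, 0 ≤ x i
  fe : Feas r s L

/-- The labelling read from the digits of `d`. -/
def lab (m : ℕ) (d : ℕ) (j : Fin 3) (i : Fin 7) : Fin (m + 1) :=
  ⟨dg (m + 1) d j i, Nat.mod_lt _ (Nat.succ_pos m)⟩

variable {x : ℕ → ℝ} {r s : Fin 3 → Fin 7 → ℝ} {L ν : ℝ}

theorem tm_fm (m d : ℕ) (j : Fin 3) (i : Fin 7) (g : Fin (m + 1)) {c : ℕ} {y : ℝ}
    (h : Fm x c y 0) : Fm x (tm (m + 1) d j i g c) (if lab m d j i = g then y else 0) 0 := by
  unfold tm
  by_cases e : lab m d j i = g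
  · have : Nat.beq (dg (m + 1) d j i) g = true := by
      rw [Nat.beq_eq]; exact congrArg Fin.val e
    rw [this, if_pos e]; exact h
  · have : Nat.beq (dg (m + 1) d j i) g = false := by
      rw [← Bool.not_eq_true, Nat.beq_eq]; exact fun h => e (Fin.ext h)
    rw [this, if_neg e]; exact Fm.zero

theorem Val.br (h : Val x r s L ν) (j : Fin 3) (i : Fin 7) :
    Fm x (bs (Nat.add (Nat.mul 8 j) i)) (r j i) 0 :=
  (Fm.bs (x := x) (8 * j + i) (by omega)).congr (h.hr j i) rfl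

theorem Val.bz (h : Val x r s L ν) (j : Fin 3) (i : Fin 7) (hi : i ≠ 6) (c : ℕ) (hc : c = ex1 i) :
    Fm x (Nat.mul c (bs (Nat.add (Nat.mul 8 j) i))) (s j i) 0 :=
  ((h.br j i).mul c).congr (by rw [h.fe.sr j i hi, hc]) (by simp)

theorem Val.aR (h : Val x r s L ν) (m d : ℕ) (j : Fin 3) (g : Fin (m + 1)) :
    Fm x (aR (m + 1) d j g) (agg (lab m d) r j g) 0 := by
  have := (tm_fm m d j 0 g (h.br j 0)).add ((tm_fm m d j 1 g (h.br j 1)).add
    ((tm_fm m d j 2 g (h.br j 2)).add ((tm_fm m d j 3 g (h.br j 3)).add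
    ((tm_fm m d j 4 g (h.br j 4)).add ((tm_fm m d j 5 g (h.br j 5)).add
    (tm_fm m d j 6 g (h.br j 6)))))))
  refine Fm.congr this ?_ rfl
  rw [agg, Fin.sum_univ_seven]; ring

theorem Val.aS (h : Val x r s L ν) (m d : ℕ) (j : Fin 3) (g : Fin (m + 1)) :
    Fm x (aS (m + 1) d j g) (agg (lab m d) s j g) 0 := by
  have h0 : Fm x (bs (Nat.add (Nat.mul 8 j) (0 : Fin 7))) (s j 0) 0 :=
    (h.br j 0).congr (by rw [h.fe.sr j 0 (by decide)]; simp [ex1]) rfl
  have h6 : Fm x (bs (Nat.add (Nat.mul 8 j) 7)) (s j 6) 0 :=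
    (Fm.bs (x := x) (8 * j + 7) (by omega)).congr (h.hs j) rfl
  have := (tm_fm m d j 0 g h0).add ((tm_fm m d j 1 g (h.bz j 1 (by decide) 2 rfl)).add
    ((tm_fm m d j 2 g (h.bz j 2 (by decide) 3 rfl)).add
    ((tm_fm m d j 3 g (h.bz j 3 (by decide) 4 rfl)).add
    ((tm_fm m d j 4 g (h.bz j 4 (by decide) 5 rfl)).add
    ((tm_fm m d j 5 g (h.bz j 5 (by decide) 6 rfl)).add (tm_fm m d j 6 g h6))))))
  refine Fm.congr this ?_ rfl
  rw [agg, Fin.sum_univ_seven]; ring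

theorem Val.allR (h : Val x r s L ν) (m d : ℕ) (g : Fin (m + 1)) :
    Fm x (allR (m + 1) d g) (∑ j, agg (lab m d) r j g) 0 := by
  refine Fm.congr ((h.aR m d 0 g).add ((h.aR m d 1 g).add (h.aR m d 2 g))) ?_ rfl
  rw [Fin.sum_univ_three]; ring

theorem cond_fm (j k : Fin 3) {a b : ℕ} {y z : ℝ} (h : Fm x a y 0) (h' : Fm x b z 0) :
    Fm x (cond (Nat.beq j k) a b) (if j = k then y else z) 0 := by
  by_cases e : j = k
  · have : Nat.beq j k = true := by rw [Nat.beq_eq, e]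
    rw [this, if_pos e]; exact h
  · have : Nat.beq j k = false := by
      rw [← Bool.not_eq_true, Nat.beq_eq]; exact fun h => e (Fin.ext h)
    rw [this, if_neg e]; exact h'

theorem ot_fm (k : Fin 3) (f : ℕ → ℕ) (F : Fin 3 → ℝ) (h : ∀ j : Fin 3, Fm x (f j) (F j) 0) :
    Fm x (ot k f) (∑ j, if j = k then 0 else F j) 0 := by
  refine Fm.congr ((cond_fm 0 k Fm.zero (h 0)).add ((cond_fm 1 k Fm.zero (h 1)).add
    (cond_fm 2 k Fm.zero (h 2)))) ?_ rfl
  rw [Fin.sum_univ_three]; ring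

theorem okN_sound {m d j : ℕ} {p : ℕ → ℕ} (h : okN m d j p = true) (i : Fin 7) :
    p (dg m d j i) ∣ ex1 i := by
  unfold okN at h
  simp only [Bool.and_eq_true, Nat.beq_eq] at h
  obtain ⟨h0, h1, h2, h3, h4, h5, h6⟩ := h
  fin_cases i
  exacts [Nat.dvd_of_mod_eq_zero h0, Nat.dvd_of_mod_eq_zero h1, Nat.dvd_of_mod_eq_zero h2,
    Nat.dvd_of_mod_eq_zero h3, Nat.dvd_of_mod_eq_zero h4, Nat.dvd_of_mod_eq_zero h5,
    Nat.dvd_of_mod_eq_zero h6]

theorem okO_sound {m d : ℕ} {k : Fin 3} {p : ℕ → ℕ} (h : okO m d k p = true) (j : Fin 3)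
    (hj : j ≠ k) (i : Fin 7) : p (dg m d j i) ∣ ex1 i := by
  unfold okO at h
  simp only [Bool.and_eq_true, Bool.or_eq_true, Nat.beq_eq] at h
  obtain ⟨h0, h1, h2⟩ := h
  have hj' : (j : ℕ) ≠ k := fun e => hj (Fin.ext e)
  fin_cases j
  · exact okN_sound (h0.resolve_left hj') i
  · exact okN_sound (h1.resolve_left hj') i
  · exact okN_sound (h2.resolve_left hj') i

theorem Val.nu (h : Val x r s L ν) : Fm x (bs 24) ν 0 := (Fm.bs 24 (by norm_num)).congr h.hν rfl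

theorem Val.el (h : Val x r s L ν) : Fm x (bs 25) L 0 := (Fm.bs 25 (by norm_num)).congr h.hL rfl

theorem Fm.mul0 (c : ℕ) {n : ℕ} {y : ℝ} (h : Fm x n y 0) : Fm x (Nat.mul c n) (c * y) 0 :=
  h.mul c

theorem Fm.add0 {n m : ℕ} {y z : ℝ} (h : Fm x n y 0) (h' : Fm x m z 0) :
    Fm x (Nat.add n m) (y + z) 0 := h.add h'

theorem two_sound (h : Val x r s L ν) {q base a b : ℕ} {y ya yb : ℝ} (h0 : Fm x base y 0)
    (ha : Fm x a ya 0) (hb : Fm x b yb 0) (h1 : ya ≤ yb → ν ≤ y)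
    (h2 : yb ≤ ya → q * ν + yb ≤ q * y + ya) {R : Rows} (hs : Sat x R) :
    ∃ R' ∈ two q base a b R, Sat x R' := by
  unfold two
  simp only [frc_eq]
  rcases le_total ya yb with e | e
  · exact ⟨_, List.mem_cons_self, Row.of_le h.nu h0 (h1 e), Row.of_le ha hb e, hs⟩
  · exact ⟨_, List.mem_cons_of_mem _ List.mem_cons_self,
      Row.of_le ((h.nu.mul0 q).add0 hb) ((h0.mul0 q).add0 ha) (h2 e), Row.of_le hb ha e, hs⟩

theorem p1_dvd {p d : ℕ} {j : Fin 3} {i : Fin 7} (h : p1 p (dg 2 d j i) ∣ ex1 i)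
    (e : lab 1 d j i = 0) : p ∣ ex1 i := by
  have : dg 2 d j i = 0 := congrArg Fin.val e
  rw [this] at h
  exact h

theorem kH_sound (h : Val x r s L ν) (hH : HI r s L ν) (k p d : ℕ) {R : Rows} (hs : Sat x R) :
    ∃ R' ∈ kH k p d R, Sat x R' := by
  unfold kH
  cases hc : (Nat.ble k 2 && (Nat.ble 1 p && (Nat.ble p 6 && okO 2 d k (p1 p)))) with
  | false => exact ⟨R, List.mem_cons_self, hs⟩
  | true =>
    simp only [Bool.and_eq_true, Nat.ble_eq] at hc
    obtain ⟨c1, c2, c3, c4⟩ := hc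
    lift k to Fin 3 using (by omega)
    have key := hH k p (lab 1 d) c2 c3 fun j i hj e => p1_dvd (okO_sound c4 j hj i) e
    have hp : (0 : ℝ) < p := by exact_mod_cast c2
    unfold hB oth at key
    refine two_sound h (h.allR 1 d 1)
      ((ot_fm k (fun j => aS 2 d j 0) _ fun j => h.aS 1 d j 0).add0 ((h.aS 1 d k 0).mul0 p))
      (h.el.mul0 p) (fun e => ?_) (fun e => ?_) hs
    all_goals
      generalize (∑ j, if j = k then 0 else agg (lab 1 d) s j 0) = A at *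
      generalize agg (lab 1 d) s k 0 = B at *
      generalize (∑ j, agg (lab 1 d) r j 1) = C at *
      have e1 : A / p + B - L = (A + p * B - p * L) / p := by field_simp
      rw [e1] at key
    · rwa [max_eq_left (div_nonpos_of_nonpos_of_nonneg (by linarith) hp.le), add_zero] at key
    · rw [max_eq_right (div_nonneg (by linarith) hp.le)] at key
      have := mul_le_mul_of_nonneg_left key hp.le
      rw [mul_add, mul_div_cancel₀ _ hp.ne'] at this
      linarith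

theorem kB_sound (h : Val x r s L ν) (hB : BI r s L ν) (k j p ρ d : ℕ) {R : Rows}
    (hs : Sat x R) : ∃ R' ∈ kB k j p ρ d R, Sat x R' := by
  unfold kB
  cases hc : (Nat.ble k 2 && (Nat.ble j 2 && (!(Nat.beq j k) && (Nat.ble 1 p &&
      (Nat.ble p 6 && (Nat.ble 2 ρ && (Nat.ble ρ 6 &&
      (okN 2 d j (p1 p) && okN 2 d k (p1 ρ))))))))) with
  | false => exact ⟨R, List.mem_cons_self, hs⟩
  | true =>
    simp only [Bool.and_eq_true, Nat.ble_eq, Bool.not_eq_true', ← Bool.not_eq_true,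
      Nat.beq_eq] at hc
    obtain ⟨c1, c2, c3, c4, c5, c6, c7, c8, c9⟩ := hc
    lift k to Fin 3 using (by omega)
    lift j to Fin 3 using (by omega)
    have key := hB k j p ρ (lab 1 d) (fun e => c3 (congrArg Fin.val e)) c4 c5 c6 c7
      (fun i e => p1_dvd (okN_sound c8 i) e) (fun i e => p1_dvd (okN_sound c9 i) e)
    have hp : (0 : ℝ) < p := by exact_mod_cast c4
    have hρ : (0 : ℝ) < ρ := by exact_mod_cast (by omega : 0 < ρ)
    unfold bB at key
    have e0 : (∑ l, if l = k ∨ l = j then 0 else agg (lab 1 d) r l 0) =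
        ∑ l, if l = k then 0 else if l = j then 0 else agg (lab 1 d) r l 0 :=
      sum_congr rfl fun l _ => by by_cases a : l = k <;> by_cases b : l = j <;> simp [a, b]
    rw [e0] at key
    refine two_sound h ((h.allR 1 d 1).add0
      (ot_fm k (fun l => cond (Nat.beq l j) 0 (aR 2 d l 0)) _
        fun l => cond_fm l j Fm.zero (h.aR 1 d l 0)))
      ((h.aS 1 d j 0).add0 ((h.aS 1 d k 0).mul0 p))
      (h.el.mul0 p) (fun e => ?_) (fun e => ?_) hs
    all_goals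
      generalize (∑ l, if l = k then 0 else if l = j then 0 else agg (lab 1 d) r l 0) = D at *
      generalize agg (lab 1 d) s j 0 = A at *
      generalize agg (lab 1 d) s k 0 = B at *
      generalize (∑ j, agg (lab 1 d) r j 1) = C at *
      have e1 : A / p + B - L = (A + p * B - p * L) / p := by field_simp
      rw [e1] at key
    · rwa [max_eq_left (div_nonpos_of_nonpos_of_nonneg (by linarith) hp.le), zero_div,
        add_zero] at key
    · rw [max_eq_right (div_nonneg (by linarith) hp.le), div_div] at key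
      have := mul_le_mul_of_nonneg_left key (mul_pos hp hρ).le
      rw [mul_add _ (C + D), mul_div_cancel₀ _ (mul_pos hp hρ).ne'] at this
      rw [Nat.mul_eq, Nat.cast_mul]
      linarith

theorem split_sound (σ : Bool) {a b : ℕ} {ya yb : ℝ} (ha : Fm x a ya 0) (hb : Fm x b yb 0)
    {R : Rows} (hs : Sat x R) :
    Sat x (rS σ a b R) ∨ (Sat x (rC σ a b R) ∧ max 0 (ya - yb) = cond σ (ya - yb) 0) := by
  cases σ with
  | true =>
    rcases lt_or_ge ya yb with e | e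
    · exact Or.inl ⟨Row.of_lt ha hb e, hs⟩
    · exact Or.inr ⟨⟨Row.of_le hb ha e, hs⟩, max_eq_right (by linarith)⟩
  | false =>
    rcases lt_or_ge yb ya with e | e
    · exact Or.inl ⟨Row.of_lt hb ha e, hs⟩
    · exact Or.inr ⟨⟨Row.of_le ha hb e, hs⟩, max_eq_left (by linarith)⟩

theorem cond_mul_fm (σ : Bool) (c : ℕ) {a : ℕ} {y : ℝ} (h : Fm x a y 0) :
    Fm x (cond σ (Nat.mul c a) 0) (c * cond σ y 0) 0 := by
  cases σ with
  | true => exact h.mul0 c
  | false => exact Fm.zero.congr (by simp) rfl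

theorem five_sound (h : Val x r s L ν) (σ0 σ1 σ2 σ3 : Bool)
    {a0 b0 a1 b1 a2 b2 a3 b3 c0 c1 c2 c3 q base : ℕ} {u0 v0 u1 v1 u2 v2 u3 v3 y : ℝ}
    (ha0 : Fm x a0 u0 0) (hb0 : Fm x b0 v0 0) (ha1 : Fm x a1 u1 0) (hb1 : Fm x b1 v1 0)
    (ha2 : Fm x a2 u2 0) (hb2 : Fm x b2 v2 0) (ha3 : Fm x a3 u3 0) (hb3 : Fm x b3 v3 0)
    (hy : Fm x base y 0)
    (key : q * ν ≤ y + c0 * max 0 (u0 - v0) + c1 * max 0 (u1 - v1) + c2 * max 0 (u2 - v2) +
      c3 * max 0 (u3 - v3)) {R : Rows} (hs : Sat x R) :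
    ∃ R' ∈ five σ0 σ1 σ2 σ3 a0 b0 a1 b1 a2 b2 a3 b3 c0 c1 c2 c3 q base R, Sat x R' := by
  unfold five
  simp only [frc_eq]
  rcases split_sound σ0 ha0 hb0 hs with e | ⟨s0, e0⟩
  · exact ⟨_, by simp, e⟩
  rcases split_sound σ1 ha1 hb1 s0 with e | ⟨s1, e1⟩
  · exact ⟨_, by simp, e⟩
  rcases split_sound σ2 ha2 hb2 s1 with e | ⟨s2, e2⟩
  · exact ⟨_, by simp, e⟩
  rcases split_sound σ3 ha3 hb3 s2 with e | ⟨s3, e3⟩
  · exact ⟨_, by simp, e⟩
  refine ⟨_, List.mem_cons_of_mem _ (List.mem_cons_of_mem _ (List.mem_cons_of_mem _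
    (List.mem_cons_of_mem _ List.mem_cons_self))), Row.of_le ((h.nu.mul0 q).add0 ((cond_mul_fm σ0 c0 hb0).add0 ((cond_mul_fm σ1 c1 hb1).add0
      ((cond_mul_fm σ2 c2 hb2).add0 (cond_mul_fm σ3 c3 hb3)))))
      (hy.add0 ((cond_mul_fm σ0 c0 ha0).add0 ((cond_mul_fm σ1 c1 ha1).add0
      ((cond_mul_fm σ2 c2 ha2).add0 (cond_mul_fm σ3 c3 ha3))))) ?_, s3⟩
  rw [e0, e1, e2, e3] at key
  cases σ0 <;> cases σ1 <;> cases σ2 <;> cases σ3 <;> simp only [cond_true, cond_false] at key ⊢ <;>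
    linarith

theorem max_div (p A w : ℝ) (hp : 0 < p) (K : ℝ) :
    max 0 (K * (A / p) - w) = max 0 (K * A - p * w) / p := by
  have e : K * (A / p) - w = (K * A - p * w) / p := by field_simp
  rw [e, ← max_div_div_right hp.le, zero_div]

theorem half (a : Bool) (l p0 p1 : ℕ) (h0 : 1 ≤ p0) (h1 : 1 ≤ p1) (d0 : l % p0 = 0)
    (d1 : l % p1 = 0) (r0 r1 s0 s1 w : ℝ) :
    4 * (l : ℝ) * hc a r0 r1 (s0 / p0) (s1 / p1) w =
      l * ((2 : ℕ) * r0 + (cond a 4 2 : ℕ) * r1) +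
      (Nat.mul (cond a 2 1) (Nat.div l p0) : ℕ) * max 0 ((cond a 1 2 : ℕ) * s0 - p0 * w) +
      (Nat.mul (cond a 0 1) (Nat.div l p1) : ℕ) * max 0 ((2 : ℕ) * s1 - p1 * w) := by
  have hp0 : (0 : ℝ) < p0 := by exact_mod_cast h0
  have hp1 : (0 : ℝ) < p1 := by exact_mod_cast h1
  have e0 : ((Nat.div l p0 : ℕ) : ℝ) = l / p0 :=
    Nat.cast_div (Nat.dvd_of_mod_eq_zero d0) hp0.ne'
  have e1 : ((Nat.div l p1 : ℕ) : ℝ) = l / p1 :=
    Nat.cast_div (Nat.dvd_of_mod_eq_zero d1) hp1.ne'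
  have m1 := max_div p0 s0 w hp0 1
  have m2 := max_div p0 s0 w hp0 2
  have m3 := max_div p1 s1 w hp1 2
  rw [one_mul] at m1
  cases a with
  | true =>
    simp only [hc, if_true, cond_true, Nat.mul_eq, Nat.cast_mul, e0, e1, m1]
    push_cast
    field_simp
    ring
  | false =>
    simp only [hc, Bool.false_eq_true, if_false, cond_false, Nat.mul_eq, Nat.cast_mul, e0, e1,
      m2, m3]
    push_cast
    field_simp
    ring

theorem kM_sound (h : Val x r s L ν) (hM : MI r s ν) (k l p0 p1 p2 p3 : ℕ)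
    (a b σ0 σ1 σ2 σ3 : Bool) (d : ℕ) {R : Rows} (hs : Sat x R) :
    ∃ R' ∈ kM k l p0 p1 p2 p3 a b σ0 σ1 σ2 σ3 d R, Sat x R' := by
  unfold kM
  cases hc0 : (Nat.ble k 2 && (Nat.ble 1 p0 && (Nat.ble p0 6 && (Nat.ble 1 p1 &&
      (Nat.ble p1 6 && (Nat.ble 1 p2 && (Nat.ble p2 6 && (Nat.ble 1 p3 &&
      (Nat.ble p3 6 && (Nat.beq (Nat.mod l p0) 0 && (Nat.beq (Nat.mod l p1) 0 &&
      (Nat.beq (Nat.mod l p2) 0 && (Nat.beq (Nat.mod l p3) 0 &&
      okO 5 d k (p4 p0 p1 p2 p3)))))))))))))) with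
  | false => exact ⟨R, List.mem_cons_self, hs⟩
  | true =>
    simp only [Bool.and_eq_true, Nat.ble_eq, Nat.beq_eq] at hc0
    obtain ⟨c1, c2, c3, c4, c5, c6, c7, c8, c9, d0, d1, d2, d3, c10⟩ := hc0
    lift k to Fin 3 using (by omega)
    have key := hM k (fun g => p4 p0 p1 p2 p3 g) a b (lab 4 d)
      (fun g => by fin_cases g; exacts [c2, c4, c6, c8, le_rfl])
      (fun g => by fin_cases g; exacts [c3, c5, c7, c9, (by norm_num : 1 ≤ 6)]) rfl
      (fun j i hj => okO_sound c10 j hj i)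
    have hl : (0 : ℝ) ≤ 4 * l := by positivity
    have key2 := mul_le_mul_of_nonneg_left key hl
    unfold mB at key2
    rw [mul_add, mul_add] at key2
    have q0 := half a l p0 p1 c2 c4 d0 d1 (oth k (agg (lab 4 d) r) 0) (oth k (agg (lab 4 d) r) 1)
      (oth k (agg (lab 4 d) s) 0) (oth k (agg (lab 4 d) s) 1) (agg (lab 4 d) s k 4)
    have q1 := half b l p2 p3 c6 c8 d2 d3 (oth k (agg (lab 4 d) r) 2) (oth k (agg (lab 4 d) r) 3)
      (oth k (agg (lab 4 d) s) 2) (oth k (agg (lab 4 d) s) 3) (agg (lab 4 d) s k 4)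
    erw [q0, q1] at key2
    have hw := h.aS 4 d k 4
    have oS : ∀ g : Fin 5, Fm x (ot k fun j => aS 5 d j g) (oth k (agg (lab 4 d) s) g) 0 :=
      fun g => ot_fm k (fun j => aS 5 d j g) _ fun j => h.aS 4 d j g
    have oR : ∀ g : Fin 5, Fm x (ot k fun j => aR 5 d j g) (oth k (agg (lab 4 d) r) g) 0 :=
      fun g => ot_fm k (fun j => aR 5 d j g) _ fun j => h.aR 4 d j g
    simp only [cond_true, frc_eq]
    refine five_sound h σ0 σ1 σ2 σ3 ((oS 0).mul0 _) (hw.mul0 _) ((oS 1).mul0 _) (hw.mul0 _)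
      ((oS 2).mul0 _) (hw.mul0 _) ((oS 3).mul0 _) (hw.mul0 _)
      ((((h.allR 4 d 4).mul0 4).add0 (((oR 0).mul0 2).add0 (((oR 1).mul0 _).add0
        (((oR 2).mul0 2).add0 ((oR 3).mul0 _))))).mul0 l) ?_ hs
    have e4 : ((Nat.mul 4 l : ℕ) : ℝ) = 4 * l := by rw [Nat.mul_eq]; push_cast; ring
    rw [e4]
    have e5 : ((4 : ℕ) : ℝ) = 4 := by norm_num
    rw [e5]
    linarith

theorem kids_sound (h : Val x r s L ν) (hH : HI r s L ν) (hB : BI r s L ν) (hM : MI r s ν)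
    (d : ℕ) (R : Rows) (hs : Sat x R) : ∃ R' ∈ kids d R, Sat x R' := by
  unfold kids
  simp only [frc_eq]
  cases Nat.beq (fld d 0 4) 0 with
  | true => exact kH_sound h hH _ _ _ hs
  | false =>
    cases Nat.beq (fld d 0 4) 1 with
    | true => exact kB_sound h hB _ _ _ _ _ hs
    | false => exact kM_sound h hM _ _ _ _ _ _ _ _ _ _ _ _ _ hs

theorem Val.rN (h : Val x r s L ν) (j : Fin 3) : Fm x (rN j) (∑ i, r j i) 0 :=
  (h.aR 0 0 j 0).congr (sum_congr rfl fun _ _ => if_pos (Subsingleton.elim (α := Fin 1) _ _)) rfl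

theorem Val.sN (h : Val x r s L ν) (j : Fin 3) : Fm x (sN j) (∑ i, s j i) 0 :=
  (h.aS 0 0 j 0).congr (sum_congr rfl fun _ _ => if_pos (Subsingleton.elim (α := Fin 1) _ _)) rfl

theorem triv (hf : Feas r s L) (hH : HI r s L ν) (k : Fin 3) :
    ν ≤ ∑ j, if j = k then 0 else ∑ i, r j i := by
  have key := hH k 1 (fun j _ => if j = k then 0 else 1) le_rfl (by norm_num)
    (fun j i _ _ => one_dvd _)
  have hk : ∑ i, s k i ≤ L := by
    fin_cases k
    exacts [hf.s0, hf.s1.le, hf.s2.le]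
  unfold hB oth agg at key
  have e1 : (∑ j, if j = k then 0 else ∑ i, if (if j = k then (0 : Fin 2) else 1) = 0
      then s j i else 0) = 0 := sum_eq_zero fun j _ => by by_cases e : j = k <;> simp [e]
  have e2 : (∑ j, ∑ i, if (if j = k then (0 : Fin 2) else 1) = 1 then r j i else 0) =
      ∑ j, if j = k then 0 else ∑ i, r j i :=
    sum_congr rfl fun j _ => by by_cases e : j = k <;> simp [e]
  rw [e1, e2] at key
  simp only [if_true, zero_div, zero_add] at key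
  rwa [max_eq_left (by linarith), add_zero] at key

theorem R0_sat (h : Val x r s L ν) (hH : HI r s L ν) (tn td : ℕ) (hg : tn * L < td * ν) :
    Sat x (R0 tn td) := by
  have t0 := triv h.fe hH 0
  have t1 := triv h.fe hH 1
  have t2 := triv h.fe hH 2
  have ht := h.fe.tot
  rw [Fin.sum_univ_three] at t0 t1 t2 ht
  simp only [if_true, Fin.reduceEq, if_false, zero_add, add_zero] at t0 t1 t2
  have tl : ∀ j : Fin 3, Row x (Nat.mul 7 (bs (8 * j + 6))) (bs (8 * j + 7)) := fun j =>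
    Row.of_le ((h.br j 6).mul0 7) ((Fm.bs (x := x) (8 * j + 7) (by omega)).congr (h.hs j) rfl)
      (by exact_mod_cast h.fe.tl j)
  exact ⟨Row.of_le h.el (h.sN 2) h.fe.s2.ge, Row.of_le h.el (h.sN 1) h.fe.s1.ge,
    Row.of_le (h.rN 1) (h.rN 2) h.fe.sym, tl 2, tl 1, tl 0,
    Row.of_le h.nu ((h.rN 0).add0 (h.rN 1)) t2, Row.of_le h.nu ((h.rN 0).add0 (h.rN 2)) t1,
    Row.of_le h.nu ((h.rN 1).add0 (h.rN 2)) t0,
    Row.of_le (h.sN 2) h.el h.fe.s2.le, Row.of_le (h.sN 1) h.el h.fe.s1.le,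
    Row.of_le (h.sN 0) h.el h.fe.s0,
    Row.of_le ((h.rN 0).add0 ((h.rN 1).add0 (h.rN 2))) h.el (by linarith),
    Row.of_lt (h.el.mul0 tn) (h.nu.mul0 td) hg, trivial⟩

theorem exists_val (hf : Feas r s L) (hν : 0 ≤ ν) : ∃ x, Val x r s L ν := by
  have hL : 0 ≤ L := le_trans (sum_nonneg fun j _ => sum_nonneg fun i _ => hf.r0 j i) hf.tot
  have hs : ∀ j, 0 ≤ s j 6 := fun j => by linarith [hf.tl j, hf.r0 j 6]
  refine ⟨fun n => if h : n < 24 then (if h' : n % 8 < 7 then r ⟨n / 8, by omega⟩ ⟨n % 8, h'⟩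
    else s ⟨n / 8, by omega⟩ 6) else if n = 24 then ν else L, ?_, ?_, by simp, by simp, ?_, hf⟩
  · intro j i
    have h1 : 8 * (j : ℕ) + i < 24 := by omega
    have h2 : (8 * (j : ℕ) + i) % 8 < 7 := by omega
    rw [dif_pos h1, dif_pos h2]
    congr 1 <;> ext <;> simp only <;> omega
  · intro j
    have h1 : 8 * (j : ℕ) + 7 < 24 := by omega
    have h2 : ¬ (8 * (j : ℕ) + 7) % 8 < 7 := by omega
    rw [dif_pos h1, dif_neg h2]
    congr 1; ext; simp only; omega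
  · intro i
    split_ifs
    exacts [hf.r0 _ _, hs _, hν, hL]

theorem lp_of_chk (tn td : ℕ) (htd : 0 < td) (ps : List (List (ℕ × ℕ))) (top : Tr0)
    (hp : ∀ p ∈ ps, ∃ t, chk (fun _ => .cons (bs 26) 0 .nil) t [pathR (R0 tn td) p] = true)
    (ht : chk (fun i => (ps.map (pathR (R0 tn td))).getD i (.cons (bs 26) 0 .nil)) top
      [R0 tn td] = true) : LPStmt ((tn : ℝ) / (td : ℝ)) := by
  intro r s L ν hf hH hB hM
  by_contra hcon
  have hL : 0 ≤ L := le_trans (sum_nonneg fun j _ => sum_nonneg fun i _ => hf.r0 j i) hf.tot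
  have htd' : (0 : ℝ) < td := by exact_mod_cast htd
  rw [not_le, div_mul_eq_mul_div, div_lt_iff₀ htd', mul_comm ν] at hcon
  have hν : 0 ≤ ν := by
    have : (0 : ℝ) ≤ tn * L := by positivity
    by_contra h0
    nlinarith
  obtain ⟨x, hx⟩ := exists_val hf hν
  have hk := kids_sound hx hH hB hM
  refine chk_sound hx.nn hk _ (fun i => ?_) top _ ht _ List.mem_cons_self (R0_sat hx hH tn td hcon)
  rcases lt_or_ge i (ps.map (pathR (R0 tn td))).length with hi | hi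
  · rw [List.getD_eq_getElem _ _ hi]
    obtain ⟨p, hp1, hp2⟩ := List.mem_map.1 (List.getElem_mem hi)
    obtain ⟨t, ht'⟩ := hp p hp1
    rw [← hp2]
    exact chk_sound hx.nn hk _ (fun _ => bad_unsat hx.nn) t _ ht' _ List.mem_cons_self
  · rw [List.getD_eq_default _ _ hi]
    exact bad_unsat hx.nn

end Pool.Agent.MP_542436_nt.Abc
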